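import Mathlib

/-!
# The group of points of `y² = (x - e₀)(x - e₁)(x - e₂)`: a clean interface

`EE e` is the group of points of the curve with `2`-torsion `e 0, e 1, e 2` over a field (an additive
commutative group, Mathlib's group law), `EE.pt he x y h` is the point `(x, y)`.
-/

set_option autoImplicit false

namespace Pool.Agent.Helper22.TW

/-- the curve `y² = (x - e₀)(x - e₁)(x - e₂)` -/
def W3 {M : Type} [Field M] (e : Fin 3 → M) : WeierstrassCurve.Affine M :=
  { a₁ := 0
    a₂ := -(e 0 + e 1 + e 2)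
    a₃ := 0
    a₄ := e 0 * e 1 + e 0 * e 2 + e 1 * e 2
    a₆ := -(e 0 * e 1 * e 2) }

/-- the equation of the curve -/
def Eqn {M : Type} [Field M] (e : Fin 3 → M) (x y : M) : Prop :=
  y ^ 2 = (x - e 0) * (x - e 1) * (x - e 2)

/-- the group of points of the curve -/
def EE {M : Type} [Field M] (e : Fin 3 → M) : Type := (W3 e).Point

noncomputable instance {M : Type} [Field M] (e : Fin 3 → M) : AddCommGroup (EE e) :=
  letI := Classical.decEq M
  inferInstanceAs (AddCommGroup (W3 e).Point)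

section

variable {M : Type} [Field M] {e : Fin 3 → M}

theorem W3_equation_iff (x y : M) : (W3 e).Equation x y ↔ Eqn e x y := by
  rw [WeierstrassCurve.Affine.equation_iff]
  simp only [W3, Eqn]
  constructor
  · intro h
    linear_combination h
  · intro h
    linear_combination h

theorem W3_negY (x y : M) : (W3 e).negY x y = -y := by
  simp [WeierstrassCurve.Affine.negY, W3]

theorem W3_nonsingular [CharZero M] (he : Function.Injective e) {x y : M} (h : Eqn e x y) :
    (W3 e).Nonsingular x y := by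
  rw [WeierstrassCurve.Affine.nonsingular_iff, W3_equation_iff]
  refine ⟨h, ?_⟩
  simp only [W3]
  by_contra hcon
  push Not at hcon
  obtain ⟨h1, h2⟩ := hcon
  have h01 : e 0 - e 1 ≠ 0 := sub_ne_zero.2 (fun h => by have := he h; simp at this)
  have h02 : e 0 - e 2 ≠ 0 := sub_ne_zero.2 (fun h => by have := he h; simp at this)
  have h12 : e 1 - e 2 ≠ 0 := sub_ne_zero.2 (fun h => by have := he h; simp at this)
  have hy : y = 0 := by
    have : (2 : M) * y = 0 := by linear_combination h2
    simpa using this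
  unfold Eqn at h
  rw [hy] at h
  have h3 : (x - e 0) * (x - e 1) * (x - e 2) = 0 := by rw [← h]; ring
  have h4 : (x - e 0) * (x - e 1) + (x - e 0) * (x - e 2) + (x - e 1) * (x - e 2) = 0 := by
    rw [hy] at h1
    linear_combination -h1
  rcases mul_eq_zero.1 h3 with h5 | h5
  · rcases mul_eq_zero.1 h5 with h6 | h6
    · have hx : x = e 0 := sub_eq_zero.1 h6
      rw [hx] at h4
      have : (e 0 - e 1) * (e 0 - e 2) = 0 := by linear_combination h4
      rcases mul_eq_zero.1 this with h7 | h7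
      · exact h01 h7
      · exact h02 h7
    · have hx : x = e 1 := sub_eq_zero.1 h6
      rw [hx] at h4
      have : (e 0 - e 1) * (e 1 - e 2) = 0 := by linear_combination -h4
      rcases mul_eq_zero.1 this with h7 | h7
      · exact h01 h7
      · exact h12 h7
  · have hx : x = e 2 := sub_eq_zero.1 h5
    rw [hx] at h4
    have : (e 0 - e 2) * (e 1 - e 2) = 0 := by linear_combination h4
    rcases mul_eq_zero.1 this with h7 | h7
    · exact h02 h7
    · exact h12 h7

/-- the point `(x, y)` -/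
def EE.pt [CharZero M] (he : Function.Injective e) (x y : M) (h : Eqn e x y) : EE e :=
  WeierstrassCurve.Affine.Point.some x y (W3_nonsingular he h)

variable [CharZero M] (he : Function.Injective e)

include he in
theorem EE.cases (P : EE e) : P = 0 ∨ ∃ (x y : M) (h : Eqn e x y), P = EE.pt he x y h := by
  rcases P with _ | ⟨x, y, h⟩
  · exact Or.inl rfl
  · exact Or.inr ⟨x, y, (W3_equation_iff x y).1 h.1, rfl⟩

theorem EE.pt_ne_zero {x y : M} (h : Eqn e x y) : EE.pt he x y h ≠ 0 :=
  WeierstrassCurve.Affine.Point.some_ne_zero _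

theorem EE.pt_inj {x y x' y' : M} {h : Eqn e x y} {h' : Eqn e x' y'}
    (heq : EE.pt he x y h = EE.pt he x' y' h') : x = x' ∧ y = y' :=
  WeierstrassCurve.Affine.Point.some.inj heq

theorem EE.pt_congr {x y x' y' : M} {h : Eqn e x y} {h' : Eqn e x' y'} (hx : x = x') (hy : y = y') :
    EE.pt he x y h = EE.pt he x' y' h' := by
  subst hx; subst hy; rfl

theorem Eqn.neg {x y : M} (h : Eqn e x y) : Eqn e x (-y) := by
  unfold Eqn at h ⊢
  rw [neg_sq, h]

theorem EE.neg_pt {x y : M} (h : Eqn e x y) : -EE.pt he x y h = EE.pt he x (-y) h.neg := by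
  letI := Classical.decEq M
  have h1 := WeierstrassCurve.Affine.Point.neg_some (W' := W3 e) (W3_nonsingular he h)
  have h2 : (W3 e).negY x y = -y := W3_negY x y
  refine Eq.trans h1 ?_
  unfold EE.pt
  congr 1

theorem EE.add_of_x_ne {x₁ y₁ x₂ y₂ : M} (h₁ : Eqn e x₁ y₁) (h₂ : Eqn e x₂ y₂) (hx : x₁ ≠ x₂) :
    ∃ (x₃ y₃ : M) (h₃ : Eqn e x₃ y₃), EE.pt he x₁ y₁ h₁ + EE.pt he x₂ y₂ h₂ = EE.pt he x₃ y₃ h₃ ∧
      x₃ = ((y₁ - y₂) / (x₁ - x₂)) ^ 2 + (e 0 + e 1 + e 2) - x₁ - x₂ ∧
      y₃ = -((y₁ - y₂) / (x₁ - x₂) * (x₃ - x₁) + y₁) := by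
  letI := Classical.decEq M
  have h0 := WeierstrassCurve.Affine.Point.add_of_X_ne (W := W3 e) (h₁ := W3_nonsingular he h₁)
    (h₂ := W3_nonsingular he h₂) hx
  refine ⟨_, _, (W3_equation_iff _ _).1 (WeierstrassCurve.Affine.nonsingular_add
    (W3_nonsingular he h₁) (W3_nonsingular he h₂) fun hxy => hx hxy.left).1, h0, ?_, ?_⟩
  · rw [WeierstrassCurve.Affine.slope_of_X_ne hx]
    simp only [WeierstrassCurve.Affine.addX, W3]
    ring
  · rw [WeierstrassCurve.Affine.slope_of_X_ne hx]
    simp only [WeierstrassCurve.Affine.addX, WeierstrassCurve.Affine.addY,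
      WeierstrassCurve.Affine.negAddY, WeierstrassCurve.Affine.negY, W3]
    ring

theorem EE.add_self {x y : M} (h : Eqn e x y) (hy : y ≠ 0) :
    ∃ (x₃ y₃ : M) (h₃ : Eqn e x₃ y₃), EE.pt he x y h + EE.pt he x y h = EE.pt he x₃ y₃ h₃ ∧
      x₃ = (((x - e 0) * (x - e 1) + (x - e 0) * (x - e 2) + (x - e 1) * (x - e 2)) / (2 * y)) ^ 2 +
        (e 0 + e 1 + e 2) - 2 * x ∧
      y₃ = -(((x - e 0) * (x - e 1) + (x - e 0) * (x - e 2) + (x - e 1) * (x - e 2)) / (2 * y) *
        (x₃ - x) + y) := by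
  letI := Classical.decEq M
  have hne : y ≠ (W3 e).negY x y := by
    rw [W3_negY]
    intro h1
    apply hy
    have h2 : (2 : M) * y = 0 := by linear_combination h1
    simpa using h2
  have h0 := WeierstrassCurve.Affine.Point.add_self_of_Y_ne (W := W3 e) (h₁ := W3_nonsingular he h) hne
  have hsl : (W3 e).slope x x y y =
      ((x - e 0) * (x - e 1) + (x - e 0) * (x - e 2) + (x - e 1) * (x - e 2)) / (2 * y) := by
    rw [WeierstrassCurve.Affine.slope_of_Y_ne rfl hne, W3_negY]
    simp only [W3]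
    congr 1
    · ring
    · ring
  refine ⟨_, _, (W3_equation_iff _ _).1 (WeierstrassCurve.Affine.nonsingular_add
    (W3_nonsingular he h) (W3_nonsingular he h) fun hxy => hne hxy.right).1, h0, ?_, ?_⟩
  · rw [hsl]
    simp only [WeierstrassCurve.Affine.addX, W3]
    ring
  · rw [hsl]
    simp only [WeierstrassCurve.Affine.addX, WeierstrassCurve.Affine.addY,
      WeierstrassCurve.Affine.negAddY, WeierstrassCurve.Affine.negY, W3]
    ring

theorem EE.add_self_zero {x : M} (h : Eqn e x 0) : EE.pt he x 0 h + EE.pt he x 0 h = 0 := by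
  have h1 := EE.neg_pt he h
  have h2 : EE.pt he x (-0) h.neg = EE.pt he x 0 h := EE.pt_congr he rfl neg_zero
  rw [h2] at h1
  calc EE.pt he x 0 h + EE.pt he x 0 h = EE.pt he x 0 h + -EE.pt he x 0 h := by rw [h1]
    _ = 0 := add_neg_cancel _

theorem EE.x_eq {x y y' : M} (h : Eqn e x y) (h' : Eqn e x y') :
    EE.pt he x y h = EE.pt he x y' h' ∨ EE.pt he x y h = -EE.pt he x y' h' := by
  have h1 : y ^ 2 = y' ^ 2 := by
    unfold Eqn at h h'
    rw [h, h']
  rcases sq_eq_sq_iff_eq_or_eq_neg.1 h1 with h2 | h2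
  · exact Or.inl (EE.pt_congr he rfl h2)
  · refine Or.inr ?_
    rw [EE.neg_pt he h']
    exact EE.pt_congr he rfl h2

/-- the `2`-torsion points satisfy the equation -/
theorem Eqn.root (i : Fin 3) : Eqn e (e i) 0 := by
  unfold Eqn
  fin_cases i <;> simp

end

/-- infinitely `2`-divisible elements of an additive group -/
def InfDiv {G : Type} [AddCommGroup G] (P : G) : Prop := ∀ m : ℕ, ∃ Q : G, (2 ^ m) • Q = P

end Pool.Agent.Helper22.TW
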