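import Pool.Agent.Helper14.BSC.Stmts2
import Pool.Agent.Helper22.TW.Pts

/-!
# Exact statements of the modules (proofs: /team-store/tw_blueprint.md)

`F` finitely generated over `ℚ`, `k = F(t)`, `Ω ⊇ k` algebraically closed, `D : Sec k Ω` a section.
-/

set_option autoImplicit false

namespace Pool.Agent.Helper22.TW

open Pool.Agent.Helper14.BSC Polynomial

/-! ## A. Points -/

/-- HALF: a point with all `x - eᵢ` squares is divisible by `2`. -/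
def ST_HALF : Prop :=
  ∀ (M : Type) [Field M] [CharZero M] (e : Fin 3 → M) (he : Function.Injective e) (x y : M)
    (h : Eqn e x y), (∀ i, IsSquare (x - e i)) → ∃ Q : EE e, Q + Q = EE.pt he x y h

/-- HALFT: a point with the class of `Tᵢ` is `Tᵢ` modulo `2`. -/
def ST_HALFT : Prop :=
  ∀ (M : Type) [Field M] [CharZero M] (e : Fin 3 → M) (he : Function.Injective e) (x y : M)
    (h : Eqn e x y), y ≠ 0 → ∀ i : Fin 3, (∀ j, j ≠ i → IsSquare ((x - e j) * (e i - e j))) →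
      ∃ Q : EE e, Q + Q = EE.pt he x y h + EE.pt he (e i) 0 (Eqn.root i)

/-- DBL: all `x - eᵢ` are squares for a double. -/
def ST_DBL : Prop :=
  ∀ (M : Type) [Field M] [CharZero M] (e : Fin 3 → M) (he : Function.Injective e) (x y : M)
    (h : Eqn e x y) (Q : EE e), Q + Q = EE.pt he x y h → ∀ i, IsSquare (x - e i)

/-- MAPP: functoriality of the group of points. -/
def ST_MAPP : Prop :=
  ∀ (M M' : Type) [Field M] [CharZero M] [Field M'] [CharZero M'] (j : M →+* M') (e : Fin 3 → M)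
    (he : Function.Injective e) (e' : Fin 3 → M') (he' : Function.Injective e'),
    (∀ i, e' i = j (e i)) → ∃ Φ : EE e →+ EE e', ∀ (x y : M) (h : Eqn e x y),
      ∃ h' : Eqn e' (j x) (j y), Φ (EE.pt he x y h) = EE.pt he' (j x) (j y) h'

/-- numerator and denominator of `x(2ʲP)` as polynomials in `x(P)` -/
noncomputable def DN {R : Type} [CommRing R] (e : Fin 3 → R) : ℕ → R[X] × R[X]
  | 0 => (X, 1)
  | n + 1 =>
    (4 * C (e 0) * (DN e n).2 * ((DN e n).1 - C (e 0) * (DN e n).2) *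
        ((DN e n).1 - C (e 1) * (DN e n).2) * ((DN e n).1 - C (e 2) * (DN e n).2) +
      (((DN e n).1 - C (e 0) * (DN e n).2) ^ 2 -
        C ((e 0 - e 1) * (e 0 - e 2)) * (DN e n).2 ^ 2) ^ 2,
    4 * (DN e n).2 * ((DN e n).1 - C (e 0) * (DN e n).2) *
        ((DN e n).1 - C (e 1) * (DN e n).2) * ((DN e n).1 - C (e 2) * (DN e n).2))

/-- the polynomial of the points with `2ᴶ P = P` -/
noncomputable def Psi {R : Type} [CommRing R] (e : Fin 3 → R) (J : ℕ) : R[X] :=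
  (DN e J).1 - X * (DN e J).2

/-- PSI: the polynomial `Psi`. -/
def ST_PSI : Prop :=
  (∀ (R S : Type) [CommRing R] [CommRing S] (φ : R →+* S) (e : Fin 3 → R) (J : ℕ),
    (Psi e J).map φ = Psi (fun i => φ (e i)) J) ∧
  (∀ (R : Type) [CommRing R] [IsDomain R] [CharZero R] (e : Fin 3 → R) (J : ℕ), 0 < J → Psi e J ≠ 0) ∧
  ∀ (M : Type) [Field M] [CharZero M] (e : Fin 3 → M) (he : Function.Injective e) (J : ℕ), 0 < J →
    ∀ (x y : M) (h : Eqn e x y), (2 ^ J) • EE.pt he x y h = EE.pt he x y h → (Psi e J).eval x = 0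

/-! ## B. Points over finite extensions of `ℚ₂` -/

/-- UNF: uniformizers. -/
def ST_UNF : Prop :=
  ∀ (p : ℕ) [Fact p.Prime] (E : IntermediateField ℚ_[p] ℂ_[p]), FiniteDimensional ℚ_[p] E →
    ∃ ϖ ∈ E, 0 < ‖ϖ‖ ∧ ‖ϖ‖ < 1 ∧ ∀ z ∈ E, z ≠ 0 → ∃ j : ℤ, ‖z‖ = ‖ϖ‖ ^ j

/-- NOD1: points with `|x| > ρ`: doubling, and subtraction from points with `|x| ≤ ρ`. -/
def ST_NOD1 : Prop :=
  ∀ (E : IntermediateField ℚ_[2] ℂ_[2]) (b : Fin 3 → E) (hb : Function.Injective b) (ρ : ℝ),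
    (∀ i, ‖((b i : E) : ℂ_[2])‖ ≤ ρ) →
    (∀ (x y : E) (h : Eqn b x y), ρ < ‖(x : ℂ_[2])‖ →
      ∃ (x' y' : E) (h' : Eqn b x' y'), EE.pt hb x y h + EE.pt hb x y h = EE.pt hb x' y' h' ∧
        ‖(x' : ℂ_[2])‖ = 4 * ‖(x : ℂ_[2])‖) ∧
    (∀ (x y : E) (h : Eqn b x y) (x' y' : E) (h' : Eqn b x' y'), ‖(x : ℂ_[2])‖ ≤ ρ →
      ρ < ‖(x' : ℂ_[2])‖ →
      ∃ (x₃ y₃ : E) (h₃ : Eqn b x₃ y₃), EE.pt hb x y h - EE.pt hb x' y' h' = EE.pt hb x₃ y₃ h₃ ∧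
        ‖(x₃ : ℂ_[2])‖ ≤ ρ)

/-- a point near the origin -/
def Near {E : IntermediateField ℚ_[2] ℂ_[2]} {b : Fin 3 → E} (hb : Function.Injective b) (ρ : ℝ)
    (P : EE b) : Prop :=
  P = 0 ∨ ∃ (x y : E) (h : Eqn b x y), P = EE.pt hb x y h ∧ ρ < ‖(x : ℂ_[2])‖

/-- NOD2: locally uniform pigeonhole. -/
def ST_NOD2 : Prop :=
  ∀ (E : IntermediateField ℚ_[2] ℂ_[2]), FiniteDimensional ℚ_[2] E → ∀ (a : Fin 3 → E),
    Function.Injective a → ∃ ε : ℝ, 0 < ε ∧ ∃ ρ : ℝ, 0 < ρ ∧ ∃ N : ℕ, ∀ (b : Fin 3 → E)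
      (hb : Function.Injective b), (∀ i, ‖((b i : E) : ℂ_[2]) - (a i : E)‖ < ε) →
      (∀ i, ‖((b i : E) : ℂ_[2])‖ ≤ ρ) ∧
      ∀ P : Fin (N + 1) → EE b, ∃ i j : Fin (N + 1), i < j ∧ Near hb ρ (P j - P i)

/-- NOD: infinitely `2`-divisible points are periodic under doubling, locally uniformly. -/
def ST_NOD : Prop :=
  ∀ (E : IntermediateField ℚ_[2] ℂ_[2]), FiniteDimensional ℚ_[2] E → ∀ (a : Fin 3 → E),
    Function.Injective a → ∃ ε : ℝ, 0 < ε ∧ ∃ J : ℕ, 0 < J ∧ ∀ (b : Fin 3 → E),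
      Function.Injective b → (∀ i, ‖((b i : E) : ℂ_[2]) - (a i : E)‖ < ε) →
      ∀ P : EE b, InfDiv P → (2 ^ J) • P = P

/-- ODD: additive reduction kills the infinitely `2`-divisible points. -/
def ST_ODD : Prop :=
  ∀ (E : IntermediateField ℚ_[2] ℂ_[2]) (b : Fin 3 → E), Function.Injective b →
    ∀ i j : Fin 3, i ≠ j → (∀ l, ‖((b l : E) : ℂ_[2]) - (b i : E)‖ ≤ ‖((b j : E) : ℂ_[2]) - (b i : E)‖) →
    (∀ z : E, ‖(z : ℂ_[2])‖ ^ 2 ≠ ‖((b j : E) : ℂ_[2]) - (b i : E)‖) → ∀ P : EE b, InfDiv P → P = 0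

/-! ## C. Places of sections -/

/-- UNQ: uniqueness of the place over `σ`. -/
def ST_UNQ : Prop :=
  ∀ (k Ω : Type) [Field k] [Field Ω] [Algebra k Ω] [CharZero k] [IsAlgClosed Ω] (D : Sec k Ω)
    (p : ℕ) [Fact p.Prime] (σ : k →+* ℂ_[p]) (P P' : Place D p σ),
    P.C = P'.C ∧ ∀ (x : LL D) (hx : x ∈ P.C) (hx' : x ∈ P'.C), P.φ ⟨x, hx⟩ = P'.φ ⟨x, hx'⟩

/-- PL: values in `E₀` and exact compatibility with Kummer classes. -/
def ST_PL : Prop :=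
  ∀ (k Ω : Type) [Field k] [Field Ω] [Algebra k Ω] [CharZero k] [IsAlgClosed Ω] (D : Sec k Ω)
    (p : ℕ) [Fact p.Prime] (σ : k →+* ℂ_[p]) (E₀ : IntermediateField ℚ_[p] ℂ_[p]),
    FiniteDimensional ℚ_[p] E₀ → (∀ x, σ x ∈ E₀) → ∀ P : Place D p σ,
      (∀ x : P.C, P.φ x ∈ E₀) ∧
      ∀ x : P.C, P.φ x ≠ 0 → ∀ M : ℕ, 0 < M → ∀ (c : k) (g : LL D),
        (x : LL D) = algebraMap k (LL D) c * g ^ M → ∃ w ∈ E₀, w ≠ 0 ∧ σ c = P.φ x * w ^ M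

/-- RPL: restriction of places. -/
def ST_RPL : Prop :=
  ∀ (k k' Ω : Type) [Field k] [Field k'] [Field Ω] [Algebra k Ω] [Algebra k' Ω] [CharZero k]
    (j : k →+* k') (D : Sec k Ω) (D' : Sec k' Ω),
    (∀ c, algebraMap k' Ω (j c) = algebraMap k Ω c) →
    (∀ x : Ω, (∀ g, D.s g x = x) → ∀ g, D'.s g x = x) →
    ∀ (p : ℕ) [Fact p.Prime] (σ' : k' →+* ℂ_[p]) (P' : Place D' p σ'),
      ∃ P : Place D p (σ'.comp j), ∀ (x : LL D) (x' : LL D'), (x : Ω) = (x' : Ω) →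
        (x ∈ P.C ↔ x' ∈ P'.C) ∧ ∀ (hx : x ∈ P.C) (hx' : x' ∈ P'.C), P.φ ⟨x, hx⟩ = P'.φ ⟨x', hx'⟩

/-- SPEC: specialization of points at a place. -/
def ST_SPEC : Prop :=
  ∀ (k Ω : Type) [Field k] [Field Ω] [Algebra k Ω] [CharZero k] [CharZero Ω] [IsAlgClosed Ω]
    (D : Sec k Ω) (p : ℕ) [Fact p.Prime] (σ : k →+* ℂ_[p]) (E₀ : IntermediateField ℚ_[p] ℂ_[p]),
    FiniteDimensional ℚ_[p] E₀ → (∀ x, σ x ∈ E₀) → ∀ (P : Place D p σ) (e : Fin 3 → k)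
    (he : Function.Injective fun i => algebraMap k (LL D) (e i)) (b : Fin 3 → E₀)
    (hb : Function.Injective b), (∀ i, ((b i : E₀) : ℂ_[p]) = σ (e i)) →
    ∃ sp : EE (fun i => algebraMap k (LL D) (e i)) → EE b,
      sp 0 = 0 ∧ (∀ R, sp (R + R) = sp R + sp R) ∧
      ∀ (x y : LL D) (h : Eqn (fun i => algebraMap k (LL D) (e i)) x y),
        (x ∉ P.C → sp (EE.pt he x y h) = 0) ∧
        ∀ hx : x ∈ P.C, ∃ (x₀ y₀ : E₀) (h₀ : Eqn b x₀ y₀), sp (EE.pt he x y h) = EE.pt hb x₀ y₀ h₀ ∧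
          (x₀ : ℂ_[p]) = P.φ ⟨x, hx⟩

/-! ## D. Rational function fields, embeddings, base change -/

/-- `k = F(t)` with `t` transcendental over `F` -/
def Gen (F k : Type) [Field F] [Field k] [Algebra F k] (t : k) : Prop :=
  Transcendental F t ∧ IntermediateField.adjoin F {t} = ⊤

/-- `τ` is transcendental over `σ₀ F` -/
def TrO {F : Type} [Field F] {p : ℕ} [Fact p.Prime] (σ₀ : F →+* ℂ_[p]) (τ : ℂ_[p]) : Prop :=
  ∀ G : F[X], G ≠ 0 → G.eval₂ σ₀ τ ≠ 0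

/-- `σ₀ F` is dense in `E` -/
def DenseIn {F : Type} [Field F] {p : ℕ} [Fact p.Prime] (σ₀ : F →+* ℂ_[p])
    (E : IntermediateField ℚ_[p] ℂ_[p]) : Prop :=
  ∀ z ∈ E, ∀ δ : ℝ, 0 < δ → ∃ a : F, ‖σ₀ a - z‖ < δ

/-- EXK: embeddings of `F(t)`. -/
def ST_EXK : Prop :=
  ∀ (F k : Type) [Field F] [Field k] [Algebra F k] (t : k), Gen F k t →
    ∀ (p : ℕ) [Fact p.Prime] (E : IntermediateField ℚ_[p] ℂ_[p]),
    (∀ (σ : k →+* ℂ_[p]), (∀ a : F, σ (algebraMap F k a) ∈ E) → σ t ∈ E → ∀ x, σ x ∈ E) ∧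
    (∀ (σ σ' : k →+* ℂ_[p]), (∀ a : F, σ (algebraMap F k a) = σ' (algebraMap F k a)) → σ t = σ' t → σ = σ') ∧
    ∀ (σ₀ : F →+* ℂ_[p]) (τ : ℂ_[p]), TrO σ₀ τ →
      ∃ σ : k →+* ℂ_[p], (∀ a : F, σ (algebraMap F k a) = σ₀ a) ∧ σ t = τ

/-- TRA: transcendental elements on spheres. -/
def ST_TRA : Prop :=
  ∀ (F : Type) [Field F] [CharZero F], (⊤ : IntermediateField ℚ F).FG →
    ∀ (p : ℕ) [Fact p.Prime] (σ₀ : F →+* ℂ_[p]) (E : IntermediateField ℚ_[p] ℂ_[p]) (α z : ℂ_[p]),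
    α ∈ E → z ∈ E → z ≠ 0 → ∀ A : Set ℂ_[p], A.Countable →
      ∃ τ ∈ E, τ ∉ A ∧ ‖τ - α‖ = ‖z‖ ∧ TrO σ₀ τ

/-- ORDP: the norm of a polynomial in `t` near a point `v` of `F`. -/
def ST_ORDP : Prop :=
  ∀ (F k : Type) [Field F] [Field k] [Algebra F k] (t : k), Gen F k t →
    ∀ (v : F) (A : F[X]), A ≠ 0 → ∃ u : F, u ≠ 0 ∧ ∀ (p : ℕ) [Fact p.Prime] (σ₀ : F →+* ℂ_[p]),
      ∃ ε : ℝ, 0 < ε ∧ ∀ σ : k →+* ℂ_[p], (∀ a : F, σ (algebraMap F k a) = σ₀ a) →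
        0 < ‖σ t - σ₀ v‖ → ‖σ t - σ₀ v‖ < ε →
        ‖σ (aeval t A)‖ = ‖σ₀ u‖ * ‖σ t - σ₀ v‖ ^ (A.rootMultiplicity v)

/-- FRAC: elements of `F(t)` are quotients of polynomials in `t`. -/
def ST_FRAC : Prop :=
  ∀ (F k : Type) [Field F] [Field k] [Algebra F k] (t : k), Gen F k t → ∀ c : k,
    ∃ A B : F[X], B ≠ 0 ∧ aeval t B ≠ 0 ∧ c = aeval t A / aeval t B

/-- CNT: continuity in `t`. -/
def ST_CNT : Prop :=
  ∀ (F k : Type) [Field F] [Field k] [Algebra F k] (t : k), Gen F k t →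
    ∀ (c : k) (p : ℕ) [Fact p.Prime] (σ : k →+* ℂ_[p]) (δ : ℝ), 0 < δ → ∃ ε : ℝ, 0 < ε ∧
      ∀ σ' : k →+* ℂ_[p], (∀ a : F, σ' (algebraMap F k a) = σ (algebraMap F k a)) →
        ‖σ' t - σ t‖ < ε → ‖σ' c - σ c‖ < δ

/-- DENS: embeddings with dense image in a finite extension of `ℚ_p`. -/
def ST_DENS : Prop :=
  ∀ (F : Type) [Field F] [CharZero F], (⊤ : IntermediateField ℚ F).FG → ∀ (p : ℕ) [Fact p.Prime],
    ∃ (σ₀ : F →+* ℂ_[p]) (E : IntermediateField ℚ_[p] ℂ_[p]), FiniteDimensional ℚ_[p] E ∧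
      (∀ x, σ₀ x ∈ E) ∧ DenseIn σ₀ E

/-- EMBU: an embedding making a given element a unit. -/
def ST_EMBU : Prop :=
  ∀ (F : Type) [Field F] [CharZero F], (⊤ : IntermediateField ℚ F).FG → ∀ c : F, c ≠ 0 →
    ∃ (p : ℕ) (_ : Fact p.Prime) (σ₀ : F →+* ℂ_[p]) (E : IntermediateField ℚ_[p] ℂ_[p]),
      FiniteDimensional ℚ_[p] E ∧ (∀ x, σ₀ x ∈ E) ∧ ‖σ₀ c‖ = 1

/-- RAM2: a ramified quadratic extension. -/
def ST_RAM2 : Prop :=
  ∀ (p : ℕ) [Fact p.Prime] (E : IntermediateField ℚ_[p] ℂ_[p]), FiniteDimensional ℚ_[p] E →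
    ∃ E₁ : IntermediateField ℚ_[p] ℂ_[p], FiniteDimensional ℚ_[p] E₁ ∧ E ≤ E₁ ∧
      ∃ ϖ ∈ E₁, 0 < ‖ϖ‖ ∧ ‖ϖ‖ < 1 ∧ (∀ z ∈ E₁, z ≠ 0 → ∃ j : ℤ, ‖z‖ = ‖ϖ‖ ^ j) ∧
        ∀ z ∈ E, z ≠ 0 → ∃ j : ℤ, ‖z‖ = ‖ϖ‖ ^ (2 * j)

/-- QD: a nonsquare of `F` which is a square in `E`. -/
def ST_QD : Prop :=
  ∀ (F : Type) [Field F] [CharZero F], (⊤ : IntermediateField ℚ F).FG → ∀ (p : ℕ) [Fact p.Prime]
    (σ₀ : F →+* ℂ_[p]) (E : IntermediateField ℚ_[p] ℂ_[p]), FiniteDimensional ℚ_[p] E →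
    (∀ x, σ₀ x ∈ E) → ∃ δ : F, ¬ IsSquare δ ∧ ∃ w ∈ E, w ≠ 0 ∧ w ^ 2 = σ₀ δ

/-- a base change of `(F, k = F(t), D)` to a finitely generated algebraic extension of constants -/
structure Ext {F k Ω : Type} [Field F] [Field k] [Field Ω] [Algebra F Ω] [Algebra k Ω]
    (t : k) (D : Sec k Ω) where
  F' : Type
  k' : Type
  [fF : Field F']
  [fk : Field k']
  [cz : CharZero F']
  [czk : CharZero k']
  [aFk : Algebra F' k']
  [aFO : Algebra F' Ω]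
  [akO : Algebra k' Ω]
  [tow : IsScalarTower F' k' Ω]
  i : F →+* F'
  j : k →+* k'
  t' : k'
  D' : Sec k' Ω
  ht : j t = t'
  hi : ∀ a, algebraMap F' Ω (i a) = algebraMap F Ω a
  hj : ∀ c, algebraMap k' Ω (j c) = algebraMap k Ω c
  gen : Gen F' k' t'
  fg : (⊤ : IntermediateField ℚ F').FG
  alg : ∀ a : F', IsAlgebraic F (algebraMap F' Ω a)
  algk : ∀ c : k', IsAlgebraic k (algebraMap k' Ω c)
  fix : ∀ x : Ω, (∀ g, D.s g x = x) → ∀ g, D'.s g x = x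

attribute [instance] Ext.fF Ext.fk Ext.cz Ext.czk Ext.aFk Ext.aFO Ext.akO Ext.tow

/-- BC: existence of base changes. -/
def ST_BC : Prop :=
  ∀ (F k Ω : Type) [Field F] [Field k] [Field Ω] [Algebra F k] [Algebra F Ω] [Algebra k Ω]
    [IsScalarTower F k Ω] [CharZero F] [IsAlgClosed Ω] (t : k), Gen F k t →
    (⊤ : IntermediateField ℚ F).FG → ∀ (D : Sec k Ω) (S : Finset Ω), (∀ a ∈ S, IsAlgebraic F a) →
    ∃ B : Ext (F := F) t D, (∀ a ∈ S, ∃ a' : B.F', algebraMap B.F' Ω a' = a) ∧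
      ∀ x : Ω, (∀ g : GG k Ω, (∀ a : Acl k Ω, (a : Ω) ∈ S → g a = a) → D.s g x = x) →
        ∀ g, B.D'.s g x = x

/-- EXTF: extension of embeddings, with a prescribed value. -/
def ST_EXTF : Prop :=
  ∀ (F F' : Type) [Field F] [Field F'] [CharZero F'] (i : F →+* F'),
    (⊤ : IntermediateField ℚ F').FG → (∀ a : F', ∃ G : F[X], G ≠ 0 ∧ G.eval₂ i a = 0) →
    ∀ (p : ℕ) [Fact p.Prime] (σ₀ : F →+* ℂ_[p]) (E : IntermediateField ℚ_[p] ℂ_[p]),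
    FiniteDimensional ℚ_[p] E → (∀ x, σ₀ x ∈ E) → ∀ (s : F') (w : ℂ_[p]), w ∈ E →
    (∀ G : F[X], G.eval₂ i s = 0 → G.eval₂ σ₀ w = 0) →
    ∃ (σ₀' : F' →+* ℂ_[p]) (E' : IntermediateField ℚ_[p] ℂ_[p]), FiniteDimensional ℚ_[p] E' ∧
      E ≤ E' ∧ (∀ x, σ₀' x ∈ E') ∧ (∀ a, σ₀' (i a) = σ₀ a) ∧ σ₀' s = w

/-- DWN: every place over `k` comes from a base change. -/
def ST_DWN : Prop :=
  ∀ (F k Ω : Type) [Field F] [Field k] [Field Ω] [Algebra F k] [Algebra F Ω] [Algebra k Ω]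
    [IsScalarTower F k Ω] [CharZero F] [CharZero k] [IsAlgClosed Ω] (t : k) (D : Sec k Ω)
    (B : Ext (F := F) t D) (p : ℕ) [Fact p.Prime] (σ : k →+* ℂ_[p]), FinI σ → ∀ P : Place D p σ,
    ∃ (σ' : B.k' →+* ℂ_[p]), FinI σ' ∧ (∀ c, σ' (B.j c) = σ c) ∧ ∃ P' : Place B.D' p σ',
      ∀ (x : LL D) (x' : LL B.D'), (x : Ω) = (x' : Ω) →
        (x ∈ P.C ↔ x' ∈ P'.C) ∧ ∀ (hx : x ∈ P.C) (hx' : x' ∈ P'.C), P.φ ⟨x, hx⟩ = P'.φ ⟨x', hx'⟩

/-! ## E. The 2-descent over the constants -/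

/-- the constants -/
def KS (F k Ω : Type) [Field F] [Field k] [Field Ω] [Algebra F Ω] [Algebra k Ω] : Set (Acl k Ω) :=
  {a | IsAlgebraic F (a : Ω)}

/-- LEV: elements fixed over all constants are fixed over finitely many constants. -/
def ST_LEV : Prop :=
  ∀ (F k Ω : Type) [Field F] [Field k] [Field Ω] [Algebra F k] [Algebra F Ω] [Algebra k Ω]
    [IsScalarTower F k Ω] [CharZero F] [IsAlgClosed Ω] (D : Sec k Ω) (x : Ω),
    x ∈ NN D (KS F k Ω) → ∃ S : Finset Ω, (∀ a ∈ S, IsAlgebraic F a) ∧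
      ∀ g : GG k Ω, (∀ a : Acl k Ω, (a : Ω) ∈ S → g a = a) → D.s g x = x

/-- FFC: the fixed field of the constants is `F̄(t)`. -/
def ST_FFC : Prop :=
  ∀ (F k Ω : Type) [Field F] [Field k] [Field Ω] [Algebra F k] [Algebra F Ω] [Algebra k Ω]
    [IsScalarTower F k Ω] [CharZero F] [IsAlgClosed Ω] (t : k), Gen F k t →
    ∀ c : Acl k Ω, c ∈ FF (KS F k Ω) → ∃ A B : (Acl F Ω)[X], B ≠ 0 ∧
      (c : Ω) * aeval (algebraMap k Ω t) B = aeval (algebraMap k Ω t) A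

/-- TRB: `t` is transcendental over the constants. -/
def ST_TRB : Prop :=
  ∀ (F k Ω : Type) [Field F] [Field k] [Field Ω] [Algebra F k] [Algebra F Ω] [Algebra k Ω]
    [IsScalarTower F k Ω] (t : k), Gen F k t → ∀ A : (Acl F Ω)[X], A ≠ 0 →
      aeval (algebraMap k Ω t) A ≠ 0

/-- KSQ: square classes over the constants. -/
def ST_KSQ : Prop :=
  ∀ (F k Ω : Type) [Field F] [Field k] [Field Ω] [Algebra F k] [Algebra F Ω] [Algebra k Ω]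
    [IsScalarTower F k Ω] [CharZero F] [IsAlgClosed Ω] (t : k), Gen F k t → ∀ (D : Sec k Ω) (x : Ω),
    x ∈ NN D (KS F k Ω) → x ≠ 0 → ∃ R : Finset (Acl F Ω), ∃ z ∈ NN D (KS F k Ω), z ≠ 0 ∧
      x = (∏ v ∈ R, (algebraMap k Ω t - (v : Ω))) * z ^ 2

/-- NSQ: products of distinct linear factors are not squares. -/
def ST_NSQ : Prop :=
  ∀ (F k Ω : Type) [Field F] [Field k] [Field Ω] [Algebra F k] [Algebra F Ω] [Algebra k Ω]
    [IsScalarTower F k Ω] [CharZero F] [IsAlgClosed Ω] (t : k), Gen F k t → ∀ (D : Sec k Ω)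
    (R : Finset (Acl F Ω)) (z : Ω), z ∈ NN D (KS F k Ω) →
    ∏ v ∈ R, (algebraMap k Ω t - (v : Ω)) = z ^ 2 → R = ∅

/-- PAR: the parity lemma. -/
def ST_PAR : Prop :=
  ∀ (F k Ω : Type) [Field F] [Field k] [Field Ω] [Algebra F k] [Algebra F Ω] [Algebra k Ω]
    [IsScalarTower F k Ω] [CharZero F] [IsAlgClosed Ω] (t : k), Gen F k t →
    (⊤ : IntermediateField ℚ F).FG → ∀ (D : Sec k Ω) (e : Fin 3 → F[X]) (x y z : Ω),
    x ∈ NN D (KS F k Ω) → y ∈ NN D (KS F k Ω) → z ∈ NN D (KS F k Ω) → z ≠ 0 →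
    Eqn (fun i => aeval (algebraMap k Ω t) (e i)) x y → ∀ (i : Fin 3) (R : Finset (Acl F Ω)),
    x - aeval (algebraMap k Ω t) (e i) = (∏ v ∈ R, (algebraMap k Ω t - (v : Ω))) * z ^ 2 →
    ∀ v ∈ R, ∃ j, j ≠ i ∧ aeval (v : Ω) (e i - e j) = 0

/-- the roots `eᵢ(t)` in the fixed field `NN D S` -/
noncomputable def eN {F k Ω : Type} [Field F] [Field k] [Field Ω] [Algebra F k] [Algebra k Ω]
    (D : Sec k Ω) (S : Set (Acl k Ω)) (t : k) (e : Fin 3 → F[X]) : Fin 3 → NN D S :=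
  fun i => algebraMap k (NN D S) (aeval t (e i))

/-- every point over `NN D (KS F k Ω)` has the class of a `2`-torsion point, and there is no point of
order `4` -/
def Cls2 {F k Ω : Type} [Field F] [Field k] [Field Ω] [Algebra F k] [Algebra F Ω] [Algebra k Ω]
    (t : k) (D : Sec k Ω) (e : Fin 3 → F[X]) : Prop :=
  (∀ x y : NN D (KS F k Ω), Eqn (eN D (KS F k Ω) t e) x y → y ≠ 0 →
    (∀ i, IsSquare (x - eN D (KS F k Ω) t e i)) ∨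
      ∃ i, ∀ j, j ≠ i → IsSquare ((x - eN D (KS F k Ω) t e j) *
        (eN D (KS F k Ω) t e i - eN D (KS F k Ω) t e j))) ∧
  ∀ i, ∃ j, j ≠ i ∧ ¬ IsSquare (eN D (KS F k Ω) t e i - eN D (KS F k Ω) t e j)

/-- GRP: doubles of points over the fixed field are infinitely `2`-divisible. -/
def ST_GRP : Prop :=
  ∀ (F k Ω : Type) [Field F] [Field k] [Field Ω] [Algebra F k] [Algebra F Ω] [Algebra k Ω]
    [IsScalarTower F k Ω] [CharZero F] [CharZero k] [CharZero Ω] [IsAlgClosed Ω] (t : k)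
    (D : Sec k Ω) (e : Fin 3 → F[X]), Gen F k t → Function.Injective e → Cls2 t D e →
    ∀ P : EE (eN D ∅ t e), InfDiv (P + P)

/-- CLT: twists of constant curves. -/
def ST_CLT : Prop :=
  ∀ (F k Ω : Type) [Field F] [Field k] [Field Ω] [Algebra F k] [Algebra F Ω] [Algebra k Ω]
    [IsScalarTower F k Ω] [CharZero F] [IsAlgClosed Ω] (t : k), Gen F k t →
    (⊤ : IntermediateField ℚ F).FG → ∀ (D : Sec k Ω) (β : Fin 3 → F), Function.Injective β →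
    Cls2 t D (fun i => C (β i) * X)

/-- CLL: the Legendre curve. -/
def ST_CLL : Prop :=
  ∀ (F k Ω : Type) [Field F] [Field k] [Field Ω] [Algebra F k] [Algebra F Ω] [Algebra k Ω]
    [IsScalarTower F k Ω] [CharZero F] [IsAlgClosed Ω] (t : k), Gen F k t →
    (⊤ : IntermediateField ℚ F).FG → ∀ (D : Sec k Ω), Cls2 t D (![0, 1, X] : Fin 3 → F[X])

/-! ## F. Two embeddings -/

/-- OPN: finite values stay finite nearby. -/
def ST_OPN : Prop :=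
  ∀ (F k Ω : Type) [Field F] [Field k] [Field Ω] [Algebra F k] [Algebra k Ω] [CharZero k]
    [IsAlgClosed Ω] (t : k), Gen F k t → ∀ (D : Sec k Ω) (p : ℕ) [Fact p.Prime]
    (σ : k →+* ℂ_[p]) (E : IntermediateField ℚ_[p] ℂ_[p]), FiniteDimensional ℚ_[p] E →
    (∀ x, σ x ∈ E) → DenseIn (σ.comp (algebraMap F k)) E → ∀ (f : LL D) (P : Place D p σ),
    f ∈ P.C → ∃ ε : ℝ, 0 < ε ∧ ∀ σ' : k →+* ℂ_[p],
      (∀ a : F, σ' (algebraMap F k a) = σ (algebraMap F k a)) → (∀ x, σ' x ∈ E) →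
      ‖σ' t - σ t‖ < ε → ∀ P' : Place D p σ', f ∈ P'.C

/-- SEP: clearing denominators and squares. -/
def ST_SEP : Prop :=
  ∀ (F k : Type) [Field F] [Field k] [Algebra F k] [CharZero F] (t : k), Gen F k t →
    ∀ G : k[X], G ≠ 0 → ∃ (H : F[X][X]) (ρ : F[X]), ρ ≠ 0 ∧ H ≠ 0 ∧
      (∀ (M : Type) [Field M] (σ : k →+* M) (ξ : M), (G.map σ).eval ξ = 0 →
        H.eval₂ (σ.comp (aeval t).toRingHom) ξ = 0) ∧
      ∀ (F' : Type) [Field F'] (i : F →+* F') (v : F'), ρ.eval₂ i v ≠ 0 →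
        (H.map (eval₂RingHom i v)).Separable ∧ (H.map (eval₂RingHom i v)).natDegree = H.natDegree

/-- RC: continuity of roots. -/
def ST_RC : Prop :=
  ∀ (F k : Type) [Field F] [Field k] [Algebra F k] [CharZero F] (t : k), Gen F k t →
    ∀ (H : F[X][X]) (v : F), (H.map (evalRingHom v)).Separable →
    (H.map (evalRingHom v)).natDegree = H.natDegree → (H.map (evalRingHom v)).Splits →
    ∃ (Λ : Finset F) (b : F) (a : F → k) (o : F → ℕ), (∀ l ∈ Λ, 0 < o l) ∧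
      ∀ (p : ℕ) [Fact p.Prime] (σ₀ : F →+* ℂ_[p]), ∃ (c c' : F → ℝ) (ε : ℝ), 0 < ε ∧
        (∀ l ∈ Λ, 0 < c l ∧ 0 < c' l) ∧ ∀ σ : k →+* ℂ_[p], (∀ a : F, σ (algebraMap F k a) = σ₀ a) →
          0 < ‖σ t - σ₀ v‖ → ‖σ t - σ₀ v‖ < ε → ∀ ξ : ℂ_[p],
          H.eval₂ (σ.comp (aeval t).toRingHom) ξ = 0 → ∃ l ∈ Λ,
            ‖ξ - σ (a l)‖ = c l * ‖σ t - σ₀ v‖ ^ (o l) ∧ ‖ξ - σ₀ b‖ = c' l

/-- CA: near a point where `f` has the value `∞` the classes of `(f - a)/(f - b)` have order divisible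
by `n`, up to ramification. -/
def ST_CA : Prop :=
  ∀ (F k Ω : Type) [Field F] [Field k] [Field Ω] [Algebra F k] [Algebra F Ω] [Algebra k Ω]
    [IsScalarTower F k Ω] [CharZero F] [CharZero k] [IsAlgClosed Ω] (t : k), Gen F k t →
    ∀ (D : Sec k Ω) (B : Ext (F := F) t D) (p : ℕ) [Fact p.Prime] (ι : B.F' →+* ℂ_[p])
    (E E₂ : IntermediateField ℚ_[p] ℂ_[p]), FiniteDimensional ℚ_[p] E → FiniteDimensional ℚ_[p] E₂ →
    E ≤ E₂ → (∀ x, ι x ∈ E₂) → (∀ a : F, ι (B.i a) ∈ E) → ∀ v : B.F', ι v ∈ E → ∀ f : LL D,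
    (∃ ε : ℝ, 0 < ε ∧ ∀ σ : k →+* ℂ_[p], (∀ a : F, σ (algebraMap F k a) = ι (B.i a)) →
      (∀ x, σ x ∈ E) → ‖σ t - ι v‖ < ε → ∀ P : Place D p σ, f ∉ P.C) →
    ∀ ϖ ∈ E, 0 < ‖ϖ‖ → ‖ϖ‖ < 1 → ∀ (f' : LL B.D'), (f' : Ω) = f → ∀ (a b : B.k') (n : ℕ), 0 < n →
    ∀ (c : B.k') (g : LL B.D'),
    (f' - algebraMap B.k' (LL B.D') a) / (f' - algebraMap B.k' (LL B.D') b) =
      algebraMap B.k' (LL B.D') c * g ^ n →
    ∀ (m : ℤ) (C₀ : ℝ), 0 < C₀ →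
    (∃ ε : ℝ, 0 < ε ∧ ∀ σ : B.k' →+* ℂ_[p], (∀ x : B.F', σ (algebraMap B.F' B.k' x) = ι x) →
      0 < ‖σ B.t' - ι v‖ → ‖σ B.t' - ι v‖ < ε → ‖σ c‖ = C₀ * ‖σ B.t' - ι v‖ ^ m) →
    ∃ w ∈ E₂, w ≠ 0 ∧ ‖ϖ‖ ^ m = ‖w‖ ^ n

/-- CON: a function cannot have values in a finite algebraic set near one point and the value `∞` near
another point (two embeddings of a quadratic point). -/
def ST_CON : Prop :=
  ∀ (F k Ω : Type) [Field F] [Field k] [Field Ω] [Algebra F k] [Algebra F Ω] [Algebra k Ω]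
    [IsScalarTower F k Ω] [CharZero F] [CharZero k] [IsAlgClosed Ω] (t : k), Gen F k t →
    (⊤ : IntermediateField ℚ F).FG → ∀ (D : Sec k Ω) (p : ℕ) [Fact p.Prime]
    (σ : k →+* ℂ_[p]) (E : IntermediateField ℚ_[p] ℂ_[p]), FiniteDimensional ℚ_[p] E →
    (∀ x, σ x ∈ E) → DenseIn (σ.comp (algebraMap F k)) E → ∀ (f : LL D),
    (∃ (ε : ℝ) (G : k[X]), 0 < ε ∧ G ≠ 0 ∧ ∀ σ' : k →+* ℂ_[p],
      (∀ a : F, σ' (algebraMap F k a) = σ (algebraMap F k a)) → (∀ x, σ' x ∈ E) →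
      ‖σ' t - σ t‖ < ε → ∀ P' : Place D p σ', ∃ hf : f ∈ P'.C, (G.map σ').eval (P'.φ ⟨f, hf⟩) = 0) →
    (∃ (β : ℂ_[p]) (ε : ℝ), β ∈ E ∧ 0 < ε ∧ ∀ σ' : k →+* ℂ_[p],
      (∀ a : F, σ' (algebraMap F k a) = σ (algebraMap F k a)) → (∀ x, σ' x ∈ E) →
      ‖σ' t - β‖ < ε → ∀ P' : Place D p σ', f ∉ P'.C) → False

/-- LCF: near a `2`-adic point the finite values of an infinitely divisible point are roots of a fixed
polynomial. -/
def ST_LCF : Prop :=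
  ∀ (F k Ω : Type) [Field F] [Field k] [Field Ω] [Algebra F k] [Algebra k Ω] [CharZero F]
    [CharZero k] [CharZero Ω] [IsAlgClosed Ω] (t : k), Gen F k t → ∀ (D : Sec k Ω)
    (e : Fin 3 → F[X]), Function.Injective e → ∀ (he : Function.Injective (eN D ∅ t e)) (f y : LL D)
    (h : Eqn (eN D ∅ t e) f y), InfDiv (EE.pt he f y h) → ∀ (σ : k →+* ℂ_[2])
    (E : IntermediateField ℚ_[2] ℂ_[2]), FiniteDimensional ℚ_[2] E → (∀ x, σ x ∈ E) →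
    ∃ (ε : ℝ) (G : k[X]), 0 < ε ∧ G ≠ 0 ∧ ∀ σ' : k →+* ℂ_[2],
      (∀ a : F, σ' (algebraMap F k a) = σ (algebraMap F k a)) → (∀ x, σ' x ∈ E) →
      ‖σ' t - σ t‖ < ε → ∀ (P' : Place D 2 σ') (hf : f ∈ P'.C), (G.map σ').eval (P'.φ ⟨f, hf⟩) = 0

/-- the largest degree of the `eᵢ - eⱼ` is odd -/
def OddDeg {F : Type} [Field F] (e : Fin 3 → F[X]) : Prop :=
  ∃ i j, i ≠ j ∧ Odd (e j - e i).natDegree ∧ ∀ i' j', (e j' - e i').natDegree ≤ (e j - e i).natDegree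

/-- LCO: infinitely divisible points have the value `∞` near some `β` (additive reduction). -/
def ST_LCO : Prop :=
  ∀ (F k Ω : Type) [Field F] [Field k] [Field Ω] [Algebra F k] [Algebra k Ω] [CharZero F]
    [CharZero k] [CharZero Ω] [IsAlgClosed Ω] (t : k), Gen F k t → ∀ (D : Sec k Ω)
    (e : Fin 3 → F[X]), Function.Injective e → OddDeg e →
    ∀ (he : Function.Injective (eN D ∅ t e)) (f y : LL D)
    (h : Eqn (eN D ∅ t e) f y), InfDiv (EE.pt he f y h) → ∀ (σ₀ : F →+* ℂ_[2])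
    (E : IntermediateField ℚ_[2] ℂ_[2]), FiniteDimensional ℚ_[2] E → (∀ x, σ₀ x ∈ E) →
    ∃ (β : ℂ_[2]) (ε : ℝ), β ∈ E ∧ 0 < ε ∧ ∀ σ' : k →+* ℂ_[2],
      (∀ a : F, σ' (algebraMap F k a) = σ₀ a) → (∀ x, σ' x ∈ E) →
      ‖σ' t - β‖ < ε → ∀ P' : Place D 2 σ', f ∉ P'.C

/-- TWO: infinitely divisible points have the value `∞` at all `2`-adic places with dense image. -/
def ST_TWO : Prop :=
  ∀ (F k Ω : Type) [Field F] [Field k] [Field Ω] [Algebra F k] [Algebra F Ω] [Algebra k Ω]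
    [IsScalarTower F k Ω] [CharZero F] [CharZero k] [CharZero Ω] [IsAlgClosed Ω] (t : k),
    Gen F k t → (⊤ : IntermediateField ℚ F).FG → ∀ (D : Sec k Ω)
    (e : Fin 3 → F[X]), Function.Injective e → OddDeg e →
    ∀ (he : Function.Injective (eN D ∅ t e)) (f y : LL D)
    (h : Eqn (eN D ∅ t e) f y), InfDiv (EE.pt he f y h) → ∀ (σ : k →+* ℂ_[2])
    (E : IntermediateField ℚ_[2] ℂ_[2]), FiniteDimensional ℚ_[2] E → (∀ x, σ x ∈ E) →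
    DenseIn (σ.comp (algebraMap F k)) E → ∀ P : Place D 2 σ, f ∉ P.C

/-! ## G. From one prime to all primes -/

/-- `f` has the value `∞` at all places over `q` with dense image -/
def InfAt {F k Ω : Type} [Field F] [Field k] [Field Ω] [Algebra F k] [Algebra k Ω] (D : Sec k Ω)
    (q : ℕ) [Fact q.Prime] (f : Ω) : Prop :=
  ∀ (σ : k →+* ℂ_[q]) (E : IntermediateField ℚ_[q] ℂ_[q]), FiniteDimensional ℚ_[q] E →
    (∀ x, σ x ∈ E) → DenseIn (σ.comp (algebraMap F k)) E → ∀ (P : Place D q σ) (f' : LL D),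
    (f' : Ω) = f → f' ∉ P.C

/-- NPW: polynomials all of whose roots have multiplicity divisible by `n`. -/
def ST_NPW : Prop :=
  ∀ (F Ω : Type) [Field F] [Field Ω] [CharZero F] [Algebra F Ω] [IsAlgClosed Ω] (n : ℕ), 0 < n →
    ∀ H : F[X], H ≠ 0 → (∀ v : Ω, n ∣ (H.map (algebraMap F Ω)).rootMultiplicity v) →
      ∃ (γ : F) (Q : F[X]), γ ≠ 0 ∧ H = C γ * Q ^ n

/-- CCL: the classes of `1 - 1/(af)` are constant. -/
def ST_CCL : Prop :=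
  ∀ (F k Ω : Type) [Field F] [Field k] [Field Ω] [Algebra F k] [Algebra F Ω] [Algebra k Ω]
    [IsScalarTower F k Ω] [CharZero F] [CharZero k] [CharZero Ω] [IsAlgClosed Ω] (t : k),
    Gen F k t → (⊤ : IntermediateField ℚ F).FG → ∀ (D : Sec k Ω) (q : ℕ) [Fact q.Prime] (f : LL D),
    (∀ c : k, f ≠ algebraMap k (LL D) c) →
    (∀ v : Ω, IsAlgebraic F v → ∃ B : Ext (F := F) t D, (∃ v' : B.F', algebraMap B.F' Ω v' = v) ∧
      InfAt (F := B.F') B.D' q (f : Ω)) →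
    ∀ a : k, a ≠ 0 → ∀ n : ℕ, 0 < n → ∃ (γ : F) (g : LL D), γ ≠ 0 ∧
      1 - (algebraMap k (LL D) a * f)⁻¹ = algebraMap k (LL D) (algebraMap F k γ) * g ^ n

/-- ALLP: the value is `∞` at all places over all primes. -/
def ST_ALLP : Prop :=
  ∀ (F k Ω : Type) [Field F] [Field k] [Field Ω] [Algebra F k] [Algebra F Ω] [Algebra k Ω]
    [IsScalarTower F k Ω] [CharZero F] [CharZero k] [CharZero Ω] [IsAlgClosed Ω] (t : k),
    Gen F k t → (⊤ : IntermediateField ℚ F).FG → ∀ (D : Sec k Ω) (f : LL D),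
    (∀ c : k, f ≠ algebraMap k (LL D) c) →
    (∀ a : k, a ≠ 0 → ∀ n : ℕ, 0 < n → ∃ (γ : F) (g : LL D), γ ≠ 0 ∧
      1 - (algebraMap k (LL D) a * f)⁻¹ = algebraMap k (LL D) (algebraMap F k γ) * g ^ n) →
    ∀ (p : ℕ) [Fact p.Prime] (σ : k →+* ℂ_[p]), FinI σ → ∀ P : Place D p σ, f ∉ P.C

/-! ## H. The theorem -/

/-- ONEF: a nonconstant function whose finite values are roots of a fixed polynomial gives a place with
all values in `k ∪ {∞}`. -/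
def ST_ONEF : Prop :=
  ∀ (k Ω : Type) [Field k] [Field Ω] [Algebra k Ω] [CharZero k] [IsAlgClosed Ω] (D : Sec k Ω),
    (⊤ : IntermediateField ℚ k).FG → ∀ (f : LL D) (G : k[X]), (∀ c : k, f ≠ algebraMap k (LL D) c) →
    G ≠ 0 → RootFin D f G →
    (∀ y z : LL D, (∀ c : k, y ≠ algebraMap k (LL D) c) → ∃ G : Polynomial (Polynomial k), G ≠ 0 ∧
      Polynomial.eval₂ (Polynomial.aeval y).toRingHom z G = 0) →
    ∃ (p : ℕ) (_ : Fact p.Prime) (σ : k →+* ℂ_[p]) (P : Place D p σ),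
      ∀ x : LL D, ∃ z : Option k, AtVal P x z

/-- RTE: points with `Cls2` give `RootFin` for the `x`-coordinate. -/
def ST_RTE : Prop :=
  ∀ (F k Ω : Type) [Field F] [Field k] [Field Ω] [Algebra F k] [Algebra F Ω] [Algebra k Ω]
    [IsScalarTower F k Ω] [CharZero F] [CharZero k] [CharZero Ω] [IsAlgClosed Ω] (t : k),
    Gen F k t → (⊤ : IntermediateField ℚ F).FG → ∀ (D : Sec k Ω) (e : Fin 3 → F[X]),
    Function.Injective e → OddDeg e →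
    Cls2 t D e → ∀ (x y : LL D), (∀ c : k, x ≠ algebraMap k (LL D) c) → Eqn (eN D ∅ t e) x y →
    RootFin D x (∏ i, (X - C (aeval t (e i))))

end Pool.Agent.Helper22.TW
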