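import Pool.Agent.Helper22.TW.Stmts
import Pool.Agent.Helper95.BSC.ONE

/-!
# TW: module ONEF
-/

set_option autoImplicit false

namespace Pool.Agent.Helper22.TW

open Pool.Agent.Helper14.BSC Polynomial

theorem st_ONEF (hZER : ST_ZER) (hDEP : ST_DEP) (hLZG : ST_LZG) (hEMB : ST_EMB)
    (hTSX : ST_TSX) (hRK : ST_RK) (hONE4 : ST_ONE4) (hMOB1 : ST_MOB1) : ST_ONEF := by
  intro k Ω _ _ _ _ _ D hfg f F₀ hf hF₀ hRF₀ hdep
  obtain ⟨b₀, H₀, hH₀, hRA₀⟩ := hZER k Ω D f F₀ hf hF₀ hRF₀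
  obtain ⟨F, iF, cF, aF, fdF, fgF, lzF⟩ := hLZG k hfg
  have : Fact (Nat.Prime 2) := ⟨Nat.prime_two⟩
  obtain ⟨j, E, hE, hjE⟩ := hEMB F fgF 2
  obtain ⟨T, hTj, -, hT1⟩ := hTSX k F 2 j E hE hjE
  have hP : ∀ i, ∃ P : Place D 2 (T.σ i), True := by
    intro i
    obtain ⟨E₁, hE₁, hσ, -⟩ := hT1 i
    obtain ⟨P, -⟩ := hRK k Ω D 2 (T.σ i) E₁ hE₁ hσ
    exact ⟨P, trivial⟩
  choose P _ using hP
  refine ⟨2, ⟨Nat.prime_two⟩, T.σ ⟨0, T.pos⟩, P ⟨0, T.pos⟩, ?_⟩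
  intro x
  by_cases hx : ∀ c : k, x ≠ algebraMap k (LL D) c
  · obtain ⟨Fx, hFx, hRFx⟩ := hDEP k Ω D (f - algebraMap k (LL D) b₀)⁻¹ x H₀
      (fun c => one_inv hf b₀ c) hH₀ hRA₀ hdep
    obtain ⟨b, H, hH, hRA⟩ := hZER k Ω D x Fx hx hFx hRFx
    have hfin : {a : k | ¬ NR D F ((x - algebraMap k (LL D) b)⁻¹ -
        algebraMap k (LL D) a)}.Finite := by
      refine (Polynomial.finite_setOfPred_isRoot hH).subset ?_
      intro a ha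
      by_contra hroot
      refine ha (hONE4 k Ω D F hfg lzF _ (H.comp (X + C a)) ?_ (one_shift hRA a))
      rw [Polynomial.eval_comp]
      simp only [Polynomial.eval_add, Polynomial.eval_X, Polynomial.eval_C, zero_add]
      exact hroot
    obtain ⟨z, hz⟩ := hMOB1 k Ω D F 2 T P _ (fun c => one_inv hx b c) hfin
    have hz0 := hz ⟨0, T.pos⟩
    obtain ⟨hgC, -⟩ := hRA 2 (T.σ ⟨0, T.pos⟩) (by
      obtain ⟨E', hE', h'⟩ := T.fin
      exact ⟨E', hE', h' _⟩) (P ⟨0, T.pos⟩)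
    cases z with
    | none => exact absurd hgC hz0
    | some c => exact one_val _ hx b c hz0
  · push Not at hx
    obtain ⟨c, hc⟩ := hx
    obtain ⟨h1, h2⟩ := (P ⟨0, T.pos⟩).base c
    refine ⟨some c, ?_⟩
    rw [hc]
    exact ⟨h1, h2⟩

end Pool.Agent.Helper22.TW
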