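import Pool.Agent.Helper22.TW.Stmts
import Pool.Agent.Helper14.BSC.TopKb

/-!
# From `RootFin` to geometricity, over arbitrary algebraic closures
-/

set_option autoImplicit false

namespace Pool.Agent.Helper22.TW

open Pool.Agent.Helper14.BSC Pool.Agent.Helper14.BSC.Gen Polynomial

variable {k K kb Ω : Type} [Field k] [Field K] [Field kb] [Field Ω] [Algebra k K] [Algebra k kb]
  [Algebra kb Ω] [Algebra k Ω] [Algebra K Ω] [IsScalarTower k K Ω] [IsScalarTower k kb Ω]
  [Algebra.IsAlgebraic K Ω] [IsAlgClosure k kb]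

/-- a section with one nonconstant function in the fixed field whose finite values at all `p`-adic places
are roots of a fixed polynomial is geometric, from a unique point -/
theorem geo_of_rootfin (hONEF : ST_ONEF) (hIFD : ST_IFD) (hUNI : ST_UNI) (hALG : ST_ALG)
    [CharZero k] [IsAlgClosed Ω] (hk : (⊤ : IntermediateField ℚ k).FG)
    (htr : ∃ t : K, Transcendental k t ∧ Algebra.IsAlgebraic (IntermediateField.adjoin k {t}) K)
    (s : (kb ≃ₐ[k] kb) →* (Ω ≃ₐ[K] Ω)) (hs : IsSection s)
    (f : LL (topD s hs)) (hfk : ∀ c : k, f ≠ algebraMap k (LL (topD s hs)) c) (G : k[X]) (hG : G ≠ 0)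
    (hR : RootFin (topD s hs) f G) : IsGeometric s := by
  haveI : CharZero K := charZero_of_injective_algebraMap (algebraMap k K).injective
  obtain ⟨p, hp, σ, P, hP⟩ := hONEF k Ω (topD s hs) hk f G hfk hG hR
    (hALG k K Ω (topD s hs) htr)
  haveI := hp
  have htK : ∃ t : K, Transcendental k t := by
    obtain ⟨t, ht, _⟩ := htr
    exact ⟨t, ht⟩
  have hfix : ∀ (g : GG k Ω) (x : K), (topD s hs).s g (algebraMap K Ω x) = algebraMap K Ω x :=
    fun g x => (s _).commutes x
  obtain ⟨O, hO⟩ := hIFD k K Ω (topD s hs) p σ P htK hfix hP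
  refine ⟨O, (top_geo s hs O).2 hO, ?_⟩
  intro O' hO'
  exact hUNI k K Ω (topD s hs) hk hfix O' O ((top_geo s hs O').1 hO') hO

end Pool.Agent.Helper22.TW
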